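import Mathlib
import Pool.Agent.Helper292.SP.Lib

set_option autoImplicit false

/-!
# MP_f21527_lc: the hypotheses of Q1 do not imply `ℵ_{ω₂} → (ℵ_{ω₂}, ℵ₁)²`

Start from a model of the hypotheses of Q1 in which moreover `2 ^ ℵ₁ = ℵ₂` (for instance from a model of GCH, see the
first part of `result`). There is a cardinal preserving forcing extension in which the hypotheses of Q1 still hold and
`ℵ_{ω₂} ↛ (ℵ_{ω₂}, ℵ₁)²`, and even `ℵ_{ω₂} ↛ (ℵ_{ω₂}, ω + 1)²` (order types).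
-/

open Cardinal Set Pool.Agent.Helper292.SP

namespace Pool.Agent.Results.MP_f21527_lc.ForcedFailure

/-- The hypotheses on the ground model: CH, `2 ^ ℵ₁ = ℵ₂`, and `ℵ_ξ ^ ℵ₀ < ℵ_{ω₂}` for all `ξ < ω₂`. -/
def Ground : Prop :=
  (2 : Cardinal.{0}) ^ (ℵ₀ : Cardinal.{0}) = ℵ₁ ∧
  (2 : Cardinal.{0}) ^ (ℵ₁ : Cardinal.{0}) = Cardinal.aleph 2 ∧
  ∀ ξ < (Cardinal.aleph.{0} 2).ord, Cardinal.aleph ξ ^ (ℵ₀ : Cardinal.{0}) <
    Cardinal.aleph (Cardinal.aleph.{0} 2).ord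

theorem ground_of_gch (h : ∀ c : Cardinal.{0}, ℵ₀ ≤ c → (2 : Cardinal.{0}) ^ c = Order.succ c) : Ground := by
  have h01 : (ℵ₀ : Cardinal.{0}) < ℵ₁ := Cardinal.aleph0_lt_aleph_one
  refine ⟨by rw [h _ le_rfl, succ_aleph0], by rw [h _ h01.le, aleph_two], ?_⟩
  intro ξ hξ
  have hlim : Order.IsSuccLimit (Cardinal.aleph.{0} 2).ord :=
    Cardinal.isSuccLimit_ord (Cardinal.aleph0_le_aleph 2)
  calc Cardinal.aleph ξ ^ (ℵ₀ : Cardinal.{0}) ≤ Cardinal.aleph ξ ^ Cardinal.aleph ξ :=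
        Cardinal.power_le_power_left (Cardinal.aleph_pos ξ).ne' (Cardinal.aleph0_le_aleph ξ)
    _ = 2 ^ Cardinal.aleph ξ := Cardinal.power_self_eq (Cardinal.aleph0_le_aleph ξ)
    _ = Order.succ (Cardinal.aleph ξ) := h _ (Cardinal.aleph0_le_aleph ξ)
    _ = Cardinal.aleph (Order.succ ξ) := Cardinal.succ_aleph ξ
    _ < Cardinal.aleph (Cardinal.aleph.{0} 2).ord := Cardinal.aleph_lt_aleph.2 (hlim.succ_lt hξ)

/-- GCH implies `Ground`. If `Ground` holds, there are a well-order `K` of order type the cardinal `ℵ_{ω₂}` and a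
nonempty forcing notion `P` such that in every extension by `P`: all cardinals of the ground model are preserved (there
is no function from `X` onto `Y` when `|X| < |Y|` in the ground model), so that `K` is still the cardinal `ℵ_{ω₂}`; CH
holds; `ρ ^ ℵ₀ < ℵ_{ω₂}` for all `ρ < ℵ_{ω₂}`; `ℵ_{ω₂} → (ℵ_{ω₂}, ℵ₁)²` fails; and so does
`ℵ_{ω₂} → (ℵ_{ω₂}, ω + 1)²`. -/
theorem result :
    ((∀ c : Cardinal.{0}, ℵ₀ ≤ c → (2 : Cardinal.{0}) ^ c = Order.succ c) → Ground) ∧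
    (Ground → ∃ (K P : Type) (_ : LinearOrder K) (_ : WellFoundedLT K) (_ : Preorder P),
      Ordinal.type (α := K) (· < ·) = (Cardinal.aleph (Cardinal.aleph.{0} 2).ord).ord ∧ Nonempty P ∧ ∀ p : P,
      (∀ X Y : Type, #X < #Y →
        p ∈ fnot (fex fun F : X → Y → Set P => fand (IsFun F) (Covers F fun _ => Set.univ))) ∧
      p ∈ CHHolds P ∧ p ∈ PowLT P K ℕ ∧ p ∈ fnot (Arrow P K (ℵ₁ : Cardinal.{0}).ord.ToType) ∧
      p ∈ fnot (ArrowT P K (WithTop ℕ))) :=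
  ⟨ground_of_gch, fun h => main_A h.1 h.2.1 h.2.2⟩

end Pool.Agent.Results.MP_f21527_lc.ForcedFailure
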